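import Mathlib

set_option autoImplicit false

/-!
# The induced tiling does not recover a satisfactory coloring

A 6-satisfactory coloring of the positive 6-smooth rationals whose colour classes are not the
dilates of one of them.
-/

namespace Pool.Agent.Results.MP_aaa104_nt.SixColoring

/-- `m` is a positive integer all of whose prime factors are at most `n` -/
def Smooth (n m : ℕ) : Prop := 0 < m ∧ ∀ p : ℕ, p.Prime → p ∣ m → p ≤ n

/-- the positive rationals `a / b` with `a`, `b` both `n`-smooth -/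
def Khat (n : ℕ) : Set ℚ := {x | ∃ a b : ℕ, Smooth n a ∧ Smooth n b ∧ x = (a : ℚ) / (b : ℚ)}

/-- `c` restricts to an `n`-satisfactory coloring of `Khat n` -/
def IsSatisfactory (n : ℕ) (c : ℚ → ℕ) : Prop :=
  (∀ x ∈ Khat n, 1 ≤ c x ∧ c x ≤ n) ∧
  (∀ i : ℕ, 1 ≤ i → i ≤ n → c (i : ℚ) = i) ∧
  (∀ x ∈ Khat n, ∀ i j : ℕ, 1 ≤ i → i < j → j ≤ n → c ((i : ℚ) * x) ≠ c ((j : ℚ) * x))

/-- the colour class of colour `k` -/
def colorClass (n : ℕ) (c : ℚ → ℕ) (k : ℕ) : Set ℚ := {x | x ∈ Khat n ∧ c x = k}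

/-- the dilate `i X`; under the isomorphism `t` it is the translate `t(i) + t(X)` -/
def dilate (i : ℕ) (X : Set ℚ) : Set ℚ := {y | ∃ x ∈ X, y = (i : ℚ) * x}

/-- the colouring in terms of the exponents of 2, 3 and 5, taken modulo 6 -/
def tab (a b e : ZMod 6) : ℕ :=
  if (3 * (b + e) : ZMod 6) = 0 then
    (if 2 * a + b + 5 * e = 0 then 1 else if 2 * a + b + 5 * e = 2 then 2 else 4)
  else
    (if 2 * a + 3 * b + e = 3 then 3 else if 2 * a + 3 * b + e = 1 then 5 else 6)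

/-- the colouring -/
noncomputable def col (x : ℚ) : ℕ :=
  tab (padicValRat 2 x : ℤ) (padicValRat 3 x : ℤ) (padicValRat 5 x : ℤ)

/-- exponent of a small number -/
def ex (p i : ℕ) : ℤ := padicValNat p i

lemma tab_range : ∀ a b e : ZMod 6, 1 ≤ tab a b e ∧ tab a b e ≤ 6 := by decide

/-- exponents of 2, 3, 5 in `1, …, 6` -/
def v2 : ℕ → ZMod 6 := fun i => if i = 2 ∨ i = 6 then 1 else if i = 4 then 2 else 0
def v3 : ℕ → ZMod 6 := fun i => if i = 3 ∨ i = 6 then 1 else 0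
def v5 : ℕ → ZMod 6 := fun i => if i = 5 then 1 else 0

lemma tab_distinct : ∀ a b e : ZMod 6, ∀ i ∈ Finset.Icc 1 6, ∀ j ∈ Finset.Icc 1 6, i < j →
    tab (v2 i + a) (v3 i + b) (v5 i + e) ≠ tab (v2 j + a) (v3 j + b) (v5 j + e) := by decide +kernel

lemma tab_fixed : ∀ i ∈ Finset.Icc 1 6, tab (v2 i) (v3 i) (v5 i) = i := by decide

lemma val_small (i : ℕ) (hi : i ∈ Finset.Icc 1 6) :
    ((padicValRat 2 (i : ℚ) : ℤ) : ZMod 6) = v2 i ∧ ((padicValRat 3 (i : ℚ) : ℤ) : ZMod 6) = v3 i ∧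
    ((padicValRat 5 (i : ℚ) : ℤ) : ZMod 6) = v5 i := by
  have hp : Fact (Nat.Prime 2) := ⟨Nat.prime_two⟩
  have hp3 : Fact (Nat.Prime 3) := ⟨Nat.prime_three⟩
  have hp5 : Fact (Nat.Prime 5) := ⟨Nat.prime_five⟩
  have e0 : ∀ p k : ℕ, ¬ p ∣ k → padicValNat p k = 0 := fun p k h => padicValNat.eq_zero_of_not_dvd h
  have h22 : padicValNat 2 2 = 1 := padicValNat_self
  have h33 : padicValNat 3 3 = 1 := padicValNat_self
  have h55 : padicValNat 5 5 = 1 := padicValNat_self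
  have h24 : padicValNat 2 4 = 2 := by
    have : padicValNat 2 (2 ^ 2) = 2 := padicValNat.prime_pow 2
    simpa using this
  have h26 : padicValNat 2 6 = 1 := by
    have : padicValNat 2 (2 * 3) = padicValNat 2 2 + padicValNat 2 3 :=
      padicValNat.mul (by norm_num) (by norm_num)
    rw [h22, e0 2 3 (by norm_num)] at this
    simpa using this
  have h36 : padicValNat 3 6 = 1 := by
    have : padicValNat 3 (2 * 3) = padicValNat 3 2 + padicValNat 3 3 :=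
      padicValNat.mul (by norm_num) (by norm_num)
    rw [h33, e0 3 2 (by norm_num)] at this
    simpa using this
  rw [padicValRat.of_nat, padicValRat.of_nat, padicValRat.of_nat]
  rw [Finset.mem_Icc] at hi
  obtain ⟨h1, h2⟩ := hi
  interval_cases i
  · simp [v2, v3, v5]
  · rw [h22, e0 3 2 (by norm_num), e0 5 2 (by norm_num)]; decide
  · rw [h33, e0 2 3 (by norm_num), e0 5 3 (by norm_num)]; decide
  · rw [h24, e0 3 4 (by norm_num), e0 5 4 (by norm_num)]; decide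
  · rw [h55, e0 2 5 (by norm_num), e0 3 5 (by norm_num)]; decide
  · rw [h26, h36, e0 5 6 (by norm_num)]; decide

lemma khat_pos {n : ℕ} {x : ℚ} (hx : x ∈ Khat n) : 0 < x := by
  obtain ⟨a, b, ha, hb, rfl⟩ := hx
  have h1 : (0:ℚ) < a := by exact_mod_cast ha.1
  have h2 : (0:ℚ) < b := by exact_mod_cast hb.1
  positivity

lemma col_mul (i : ℕ) (hi : i ∈ Finset.Icc 1 6) (x : ℚ) (hx : 0 < x) :
    col ((i : ℚ) * x) = tab (v2 i + ((padicValRat 2 x : ℤ) : ZMod 6))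
      (v3 i + ((padicValRat 3 x : ℤ) : ZMod 6)) (v5 i + ((padicValRat 5 x : ℤ) : ZMod 6)) := by
  have hp : Fact (Nat.Prime 2) := ⟨Nat.prime_two⟩
  have hp3 : Fact (Nat.Prime 3) := ⟨Nat.prime_three⟩
  have hp5 : Fact (Nat.Prime 5) := ⟨Nat.prime_five⟩
  obtain ⟨h2, h3, h5⟩ := val_small i hi
  rw [Finset.mem_Icc] at hi
  have hi0 : (i : ℚ) ≠ 0 := by
    have : i ≠ 0 := by omega
    exact_mod_cast this
  unfold col
  rw [padicValRat.mul hi0 hx.ne', padicValRat.mul hi0 hx.ne', padicValRat.mul hi0 hx.ne']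
  push_cast
  rw [h2, h3, h5]

lemma col_small (i : ℕ) (hi : i ∈ Finset.Icc 1 6) : col (i : ℚ) = i := by
  have h := col_mul i hi 1 one_pos
  rw [mul_one] at h
  rw [h]
  simpa using tab_fixed i hi

lemma col_satisfactory : IsSatisfactory 6 col := by
  refine ⟨fun x _ => tab_range _ _ _, fun i h1 h2 => col_small i (Finset.mem_Icc.2 ⟨h1, h2⟩), ?_⟩
  intro x hx i j hi hij hj
  rw [col_mul i (Finset.mem_Icc.2 ⟨hi, by omega⟩) x (khat_pos hx),
    col_mul j (Finset.mem_Icc.2 ⟨by omega, hj⟩) x (khat_pos hx)]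
  exact tab_distinct _ _ _ i (Finset.mem_Icc.2 ⟨hi, by omega⟩) j (Finset.mem_Icc.2 ⟨by omega, hj⟩) hij

lemma smooth_of_dvd_pow {n m k : ℕ} (hm : 0 < m) (h : m ∣ k) (hk : ∀ p : ℕ, p.Prime → p ∣ k → p ≤ n) :
    Smooth n m := ⟨hm, fun p hp hd => hk p hp (hd.trans h)⟩

lemma smooth30 (m : ℕ) (hm : 0 < m) (h : m ∣ 30 ^ 2) : Smooth 6 m := by
  refine ⟨hm, fun p hp hd => ?_⟩
  have h1 : p ∣ 30 := hp.dvd_of_dvd_pow (hd.trans h)
  have h2 : p ∈ Nat.primeFactors 30 := Nat.mem_primeFactors.2 ⟨hp, h1, by norm_num⟩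
  have h3 : Nat.primeFactors 30 = {2, 3, 5} := by decide +kernel
  rw [h3] at h2
  simp at h2
  omega

lemma mem_khat (m : ℕ) (hm : 0 < m) (h : m ∣ 30 ^ 2) : (m : ℚ) ∈ Khat 6 :=
  ⟨m, 1, smooth30 m hm h, smooth30 1 one_pos (one_dvd _), by simp⟩

/-- The statement 'for every `n ≥ 1`, every `n`-satisfactory colouring `c` and every colour class `X`
of `c`, the family of dilates `i X` (`1 ≤ i ≤ n`) is the family of colour classes of `c`' is false. -/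
theorem result :
    ¬ (∀ n : ℕ, 1 ≤ n → ∀ c : ℚ → ℕ, IsSatisfactory n c → ∀ k : ℕ, 1 ≤ k → k ≤ n →
      {S : Set ℚ | ∃ i : ℕ, 1 ≤ i ∧ i ≤ n ∧ S = dilate i (colorClass n c k)} =
        {S : Set ℚ | ∃ j : ℕ, 1 ≤ j ∧ j ≤ n ∧ S = colorClass n c j}) := by
  intro H
  have h := H 6 (by norm_num) col col_satisfactory 1 le_rfl (by norm_num)
  have h1 : dilate 3 (colorClass 6 col 1) ∈
      {S : Set ℚ | ∃ i : ℕ, 1 ≤ i ∧ i ≤ 6 ∧ S = dilate i (colorClass 6 col 1)} :=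
    ⟨3, by norm_num, by norm_num, rfl⟩
  rw [h] at h1
  obtain ⟨j, _, _, hj⟩ := h1
  have c1 : col ((1 : ℕ) : ℚ) = 1 := col_small 1 (by decide)
  have c3 : col ((3 : ℕ) : ℚ) = 3 := col_small 3 (by decide)
  have c5 : ((padicValRat 2 ((5:ℕ):ℚ) : ℤ) : ZMod 6) = 0 ∧ ((padicValRat 3 ((5:ℕ):ℚ) : ℤ) : ZMod 6) = 0 ∧
      ((padicValRat 5 ((5:ℕ):ℚ) : ℤ) : ZMod 6) = 1 := by
    have := val_small 5 (by decide)
    simpa [v2, v3, v5] using this
  have c15 : col ((15 : ℕ) : ℚ) = 1 := by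
    have e : ((15 : ℕ) : ℚ) = ((3 : ℕ) : ℚ) * ((5 : ℕ) : ℚ) := by norm_num
    rw [e, col_mul 3 (by decide) _ (by norm_num), c5.1, c5.2.1, c5.2.2]
    decide
  have v15 : ((padicValRat 2 ((15:ℕ):ℚ) : ℤ) : ZMod 6) = 0 ∧ ((padicValRat 3 ((15:ℕ):ℚ) : ℤ) : ZMod 6) = 1 ∧
      ((padicValRat 5 ((15:ℕ):ℚ) : ℤ) : ZMod 6) = 1 := by
    have hp : Fact (Nat.Prime 2) := ⟨Nat.prime_two⟩
    have hp3 : Fact (Nat.Prime 3) := ⟨Nat.prime_three⟩
    have hp5 : Fact (Nat.Prime 5) := ⟨Nat.prime_five⟩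
    have e : ((15 : ℕ) : ℚ) = ((3 : ℕ) : ℚ) * ((5 : ℕ) : ℚ) := by norm_num
    have h3 := val_small 3 (by decide)
    have n3 : ((3 : ℕ) : ℚ) ≠ 0 := by norm_num
    have n5 : ((5 : ℕ) : ℚ) ≠ 0 := by norm_num
    rw [e, padicValRat.mul n3 n5, padicValRat.mul n3 n5, padicValRat.mul n3 n5]
    push_cast at h3 c5 ⊢
    rw [h3.1, h3.2.1, h3.2.2, c5.1, c5.2.1, c5.2.2]
    decide
  have c45 : col ((3 : ℕ) * ((15 : ℕ) : ℚ)) = 5 := by
    rw [col_mul 3 (by decide) _ (by norm_num), v15.1, v15.2.1, v15.2.2]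
    decide
  have m1 : ((3 : ℕ) : ℚ) ∈ dilate 3 (colorClass 6 col 1) :=
    ⟨((1 : ℕ) : ℚ), ⟨mem_khat 1 one_pos (one_dvd _), c1⟩, by norm_num⟩
  have m2 : ((3 : ℕ) : ℚ) * ((15 : ℕ) : ℚ) ∈ dilate 3 (colorClass 6 col 1) :=
    ⟨((15 : ℕ) : ℚ), ⟨mem_khat 15 (by norm_num) (by norm_num), c15⟩, rfl⟩
  rw [hj] at m1 m2
  have e1 := m1.2
  have e2 := m2.2
  rw [c3] at e1
  rw [c45] at e2
  omega

end Pool.Agent.Results.MP_aaa104_nt.SixColoring
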